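import Pool.Agent.helper62.RS.SpecS
import Pool.Agent.helper62.QU.CA1
import Pool.Agent.helper42.QU.CA2

open scoped MatrixGroups ContDiff Topology UpperHalfPlane
open UpperHalfPlane MeasureTheory Filter Set

namespace Pool.Agent.RS

/-- the function `y ^ a` -/
noncomputable def SPW_p (a : ℂ) (z : ℍ) : ℂ := ((z.im : ℝ) : ℂ) ^ a

theorem SPW_exp (a : ℂ) (y : ℝ) (hy : 0 < y) : (y : ℂ) ^ a = Complex.exp (a * ((Real.log y : ℝ) : ℂ)) := by
  rw [Complex.cpow_def_of_ne_zero (by exact_mod_cast hy.ne'), Complex.ofReal_log hy.le, mul_comm]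

theorem SPW_onC (a : ℂ) {w : ℂ} (hw : 0 < w.im) :
    QU.onC (SPW_p a) w = Complex.exp (a * ((Real.log w.im : ℝ) : ℂ)) := by
  have h1 : (ofComplex w).im = w.im := QU.CA1_im hw
  rw [QU.onC, SPW_p, h1, SPW_exp a _ hw]

theorem SPW_CD (a : ℂ) : QU.CD ∞ (SPW_p a) := by
  unfold QU.CD
  have h1 : ContDiffOn ℝ ∞ (fun w : ℂ => Complex.exp (a * ((Real.log w.im : ℝ) : ℂ))) {w : ℂ | 0 < w.im} := by
    have h2 : ContDiffOn ℝ ∞ (fun w : ℂ => w.im) {w : ℂ | 0 < w.im} := Complex.imCLM.contDiff.contDiffOn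
    have h3 : ContDiffOn ℝ ∞ (fun w : ℂ => Real.log w.im) {w : ℂ | 0 < w.im} :=
      h2.log (fun w hw => (ne_of_gt hw))
    have h4 : ContDiffOn ℝ ∞ (fun w : ℂ => ((Real.log w.im : ℝ) : ℂ)) {w : ℂ | 0 < w.im} :=
      Complex.ofRealCLM.contDiff.comp_contDiffOn h3
    exact (contDiffOn_const.mul h4).cexp
  exact h1.congr fun w hw => SPW_onC a hw

theorem SPW_fd (a c : ℂ) (z : ℍ) (v : ℂ) :
    fderiv ℝ (QU.onC (fun z => c * SPW_p a z)) (z : ℂ) v = v.im • (c * (SPW_p a z * (a * ((z.im : ℝ) : ℂ)⁻¹))) := by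
  have hz : 0 < (z : ℂ).im := z.im_pos
  have hev : QU.onC (fun z => c * SPW_p a z) =ᶠ[𝓝 (z : ℂ)]
      fun w : ℂ => c * Complex.exp (a * ((Real.log w.im : ℝ) : ℂ)) := by
    filter_upwards [(isOpen_lt continuous_const Complex.continuous_im).mem_nhds hz] with w hw
    show c * QU.onC (SPW_p a) w = _
    rw [SPW_onC a hw]
  rw [hev.fderiv_eq]
  have h1 : HasDerivAt (fun y : ℝ => c * Complex.exp (a * ((Real.log y : ℝ) : ℂ)))
      (c * (Complex.exp (a * ((Real.log z.im : ℝ) : ℂ)) * (a * ((z.im : ℝ) : ℂ)⁻¹))) z.im := by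
    have h2 : HasDerivAt (fun y : ℝ => ((Real.log y : ℝ) : ℂ)) (((z.im)⁻¹ : ℝ) : ℂ) z.im :=
      (Real.hasDerivAt_log z.im_pos.ne').ofReal_comp
    have h3 := ((h2.const_mul a).cexp).const_mul c
    rw [Complex.ofReal_inv] at h3
    exact h3
  have h4 : HasFDerivAt (fun w : ℂ => w.im) Complex.imCLM (z : ℂ) := Complex.imCLM.hasFDerivAt
  have h5 := (HasDerivAt.hasFDerivAt (x := (z : ℂ).im) h1).comp (z : ℂ) h4
  have h6 : fderiv ℝ (fun w : ℂ => c * Complex.exp (a * ((Real.log w.im : ℝ) : ℂ))) (z : ℂ) = _ := h5.fderiv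
  rw [h6, SPW_p, SPW_exp a _ z.im_pos]
  simp

theorem SPW_dX (a c : ℂ) (z : ℍ) : QU.dX (fun z => c * SPW_p a z) z = 0 := by
  rw [QU.dX, SPW_fd]
  simp

theorem SPW_dY (a c : ℂ) (z : ℍ) : QU.dY (fun z => c * SPW_p a z) z = c * a * SPW_p a z := by
  rw [QU.dY, SPW_fd]
  have hz : ((z.im : ℝ) : ℂ) ≠ 0 := by exact_mod_cast z.im_pos.ne'
  simp only [Complex.I_im, one_smul, Complex.real_smul]
  field_simp

theorem SPW_lap (a : ℂ) (z : ℍ) : QU.lap (SPW_p a) z = -(a * (a - 1)) * SPW_p a z := by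
  have h2 : QU.CD 2 (SPW_p a) := (SPW_CD a).of_le (WithTop.coe_le_coe.2 (le_top : (2 : ℕ∞) ≤ ⊤))
  have h3 := (QU.CA2 QU.CA1 ℂ (SPW_p a) h2 z).2
  have e1 : (SPW_p a) = fun z => (1 : ℂ) * SPW_p a z := by
    funext z
    rw [one_mul]
  have eX : QU.dX (SPW_p a) = fun z => (0 : ℂ) * SPW_p a z := by
    funext z
    rw [zero_mul]
    rw [e1]
    exact SPW_dX a 1 z
  have eY : QU.dY (SPW_p a) = fun z => a * SPW_p a z := by
    funext z
    conv_lhs => rw [e1]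
    rw [SPW_dY, one_mul]
  rw [h3, eX, SPW_dX, eY, SPW_dY]
  ring

theorem SPW_swap (h : ℍ → ℂ) (H : ℝ → ℍ → ℂ) (hh : Continuous h) (hc : HasCompactSupport h)
    (hH : Continuous (fun p : ℝ × ℍ => H p.1 p.2)) :
    ∫ z : ℍ, h z * ∫ θ in (0 : ℝ)..(2 * Real.pi), H θ z = ∫ θ in (0 : ℝ)..(2 * Real.pi), ∫ z : ℍ, h z * H θ z := by
  have hpi : (0 : ℝ) ≤ 2 * Real.pi := by positivity
  simp only [intervalIntegral.integral_of_le hpi]
  have e1 : ∀ z : ℍ, h z * ∫ θ in Ioc 0 (2 * Real.pi), H θ z = ∫ θ in Ioc 0 (2 * Real.pi), h z * H θ z := by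
    intro z
    rw [MeasureTheory.integral_const_mul]
  simp only [e1]
  apply MeasureTheory.integral_integral_swap
  have hcont : Continuous (fun p : ℍ × ℝ => h p.1 * H p.2 p.1) :=
    (hh.comp continuous_fst).mul (hH.comp (continuous_snd.prodMk continuous_fst))
  have hI : IntegrableOn (fun p : ℍ × ℝ => h p.1 * H p.2 p.1) (tsupport h ×ˢ Icc 0 (2 * Real.pi))
      ((volume : Measure ℍ).prod (volume : Measure ℝ)) :=
    hcont.continuousOn.integrableOn_compact (hc.isCompact.prod isCompact_Icc)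
  have hI2 : IntegrableOn (fun p : ℍ × ℝ => h p.1 * H p.2 p.1) (univ ×ˢ Ioc 0 (2 * Real.pi))
      ((volume : Measure ℍ).prod (volume : Measure ℝ)) := by
    refine hI.of_forall_sdiff_eq_zero (MeasurableSet.univ.prod measurableSet_Ioc) ?_
    rintro ⟨z, θ⟩ ⟨⟨-, hθ⟩, hn⟩
    have hz : z ∉ tsupport h := by
      intro hz
      exact hn ⟨hz, Ioc_subset_Icc_self hθ⟩
    show h z * H θ z = 0
    rw [image_eq_zero_of_notMem_tsupport hz, zero_mul]
  have hI3 : Integrable (fun p : ℍ × ℝ => h p.1 * H p.2 p.1)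
      ((volume : Measure ℍ).prod ((volume : Measure ℝ).restrict (Ioc 0 (2 * Real.pi)))) := by
    have e : (volume : Measure ℍ).prod ((volume : Measure ℝ).restrict (Ioc 0 (2 * Real.pi))) =
        ((volume : Measure ℍ).prod (volume : Measure ℝ)).restrict (univ ×ˢ Ioc 0 (2 * Real.pi)) := by
      rw [← Measure.prod_restrict, Measure.restrict_univ]
    rw [e]
    exact hI2
  exact hI3

/-- the exponent -/
noncomputable def SPW_e (s : ℝ) : ℂ := (1 / 2 : ℂ) + (s : ℂ) * Complex.I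

theorem SPW_re (s : ℝ) : (SPW_e s).re = 1 / 2 := by simp [SPW_e]

theorem SPW_wv (s : ℝ) (g : SL(2, ℝ)) (z : ℍ) : wv s g z = SPW_p (SPW_e s) (g • z) := rfl

theorem SPW_eig (hSEQ : SEQ_stmt) (s : ℝ) (g : SL(2, ℝ)) : QU.CD ∞ (wv s g) ∧
    ∀ z, QU.lap (wv s g) z = ((1 / 4 + s ^ 2 : ℝ) : ℂ) * wv s g z := by
  obtain ⟨h1, h2⟩ := hSEQ (SPW_p (SPW_e s)) g
  have e0 : wv s g = fun z => SPW_p (SPW_e s) (g • z) := funext fun z => SPW_wv s g z
  rw [e0]
  refine ⟨h1 ∞ (SPW_CD _), fun z => ?_⟩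
  rw [h2 ((SPW_CD _).of_le (WithTop.coe_le_coe.2 (le_top : (2 : ℕ∞) ≤ ⊤))) z, SPW_lap]
  have e : -(SPW_e s * (SPW_e s - 1)) = ((1 / 4 + s ^ 2 : ℝ) : ℂ) := by
    have hI : Complex.I ^ 2 = -1 := Complex.I_sq
    have e2 : -(SPW_e s * (SPW_e s - 1)) = 1 / 4 - (s : ℂ) ^ 2 * Complex.I ^ 2 := by
      rw [SPW_e]
      ring
    rw [e2, hI]
    push_cast
    ring
  rw [e]

theorem SPW_cont (s : ℝ) : Continuous (fun p : SL(2, ℝ) × ℍ => wv s p.1 p.2) := by
  have hcim : Continuous (fun p : SL(2, ℝ) × ℍ => (p.1 • p.2).im) :=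
    UpperHalfPlane.continuous_im.comp continuous_smul
  refine Continuous.cpow (Complex.continuous_ofReal.comp hcim) continuous_const ?_
  intro p
  refine Or.inl ?_
  have h := (p.1 • p.2).im_pos
  show 0 < (((p.1 • p.2).im : ℝ) : ℂ).re
  rw [Complex.ofReal_re]
  exact h

theorem SPW_c1 (s : ℝ) (z : ℍ) : Continuous (fun g : SL(2, ℝ) => wv s g z) := by
  have h1 : Continuous (fun g : SL(2, ℝ) => ((g, z) : SL(2, ℝ) × ℍ)) := continuous_id.prodMk continuous_const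
  exact Continuous.comp (g := fun p : SL(2, ℝ) × ℍ => wv s p.1 p.2) (f := fun g : SL(2, ℝ) => ((g, z) : SL(2, ℝ) × ℍ))
    (SPW_cont s) h1

theorem SPW_c2 (hkc : Continuous kM) (s : ℝ) : Continuous (fun p : ℝ × ℍ => wv s (kM p.1) p.2) := by
  have h1 : Continuous (fun p : ℝ × ℍ => ((kM p.1, p.2) : SL(2, ℝ) × ℍ)) :=
    (hkc.comp continuous_fst).prodMk continuous_snd
  exact Continuous.comp (g := fun p : SL(2, ℝ) × ℍ => wv s p.1 p.2)
    (f := fun p : ℝ × ℍ => ((kM p.1, p.2) : SL(2, ℝ) × ℍ)) (SPW_cont s) h1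

theorem SPW_c3 (hkc : Continuous kM) (s : ℝ) (z : ℍ) : Continuous (fun p : ℝ × ℍ => wv s (kM p.1) z) := by
  have h1 : Continuous (fun p : ℝ × ℍ => kM p.1) := hkc.comp continuous_fst
  exact Continuous.comp (g := fun g : SL(2, ℝ) => wv s g z) (f := fun p : ℝ × ℍ => kM p.1) (SPW_c1 s z) h1

theorem SPW_norm (s : ℝ) (g : SL(2, ℝ)) (z : ℍ) : ‖wv s g z‖ = Real.sqrt (g • z).im := by
  rw [SPW_wv, SPW_p, Complex.norm_cpow_eq_rpow_re_of_pos (g • z).im_pos, Real.sqrt_eq_rpow, SPW_re]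

theorem SPW_im (haM : ∀ (t : ℝ) (z : ℍ), ((aM t • z : ℍ) : ℂ) = (Real.exp t : ℂ) * z)
    (hnM : ∀ (x : ℝ) (z : ℍ), ((nM x • z : ℍ) : ℂ) = z + x) (x t : ℝ) (g : SL(2, ℝ)) (u : ℍ) :
    ((nM x * aM t * g) • u).im = Real.exp t * (g • u).im := by
  rw [mul_smul, mul_smul]
  have e1 : (nM x • aM t • g • u).im = (aM t • g • u).im := by
    have h := congrArg Complex.im (hnM x (aM t • g • u))
    rw [Complex.add_im, Complex.ofReal_im, add_zero] at h
    exact h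
  have e2 : (aM t • g • u).im = Real.exp t * (g • u).im := by
    have h := congrArg Complex.im (haM t (g • u))
    rw [Complex.im_ofReal_mul] at h
    exact h
  rw [e1, e2]

theorem SPW_q (s t : ℝ) : ((Real.exp t : ℝ) : ℂ) ^ (SPW_e s) *
    (starRingEnd ℂ) (((Real.exp t : ℝ) : ℂ) ^ (SPW_e s)) = (Real.exp t : ℂ) := by
  rw [Complex.mul_conj, Complex.normSq_eq_norm_sq, Complex.norm_cpow_eq_rpow_re_of_pos (Real.exp_pos t),
    SPW_re, ← Real.rpow_natCast, ← Real.rpow_mul (Real.exp_pos t).le]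
  norm_num

theorem SPW_eqv (haM : ∀ (t : ℝ) (z : ℍ), ((aM t • z : ℍ) : ℂ) = (Real.exp t : ℂ) * z)
    (hnM : ∀ (x : ℝ) (z : ℍ), ((nM x • z : ℍ) : ℂ) = z + x) (s x t : ℝ) (g : SL(2, ℝ)) (z w : ℍ) :
    wv s (nM x * aM t * g) z * (starRingEnd ℂ) (wv s (nM x * aM t * g) w) =
      (Real.exp t : ℂ) * (wv s g z * (starRingEnd ℂ) (wv s g w)) := by
  have hw2 : ∀ u : ℍ, wv s (nM x * aM t * g) u = ((Real.exp t : ℝ) : ℂ) ^ (SPW_e s) * wv s g u := by
    intro u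
    rw [SPW_wv, SPW_wv, SPW_p, SPW_p, SPW_im haM hnM x t g u, Complex.ofReal_mul,
      Complex.mul_cpow_ofReal_nonneg (Real.exp_pos t).le (g • u).im_pos.le]
  rw [hw2, hw2, map_mul]
  have e : ((Real.exp t : ℝ) : ℂ) ^ (SPW_e s) * wv s g z *
      ((starRingEnd ℂ) (((Real.exp t : ℝ) : ℂ) ^ (SPW_e s)) * (starRingEnd ℂ) (wv s g w)) =
      (((Real.exp t : ℝ) : ℂ) ^ (SPW_e s) * (starRingEnd ℂ) (((Real.exp t : ℝ) : ℂ) ^ (SPW_e s))) *
        (wv s g z * (starRingEnd ℂ) (wv s g w)) := by ring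
  rw [e, SPW_q]

theorem SPW_inv (haM : ∀ (t : ℝ) (z : ℍ), ((aM t • z : ℍ) : ℂ) = (Real.exp t : ℂ) * z)
    (hnM : ∀ (x : ℝ) (z : ℍ), ((nM x • z : ℍ) : ℂ) = z + x) (hSCV : SCV_stmt)
    (s : ℝ) (h : SL(2, ℝ)) (z w : ℍ) : sph s (h • z) (h • w) = sph s z w := by
  have hc : Continuous (fun g : SL(2, ℝ) => wv s g z * (starRingEnd ℂ) (wv s g w)) :=
    (SPW_c1 s z).mul (Complex.continuous_conj.comp (SPW_c1 s w))
  have h1 := hSCV (fun g => wv s g z * (starRingEnd ℂ) (wv s g w)) hc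
    (fun x t g => SPW_eqv haM hnM s x t g z w) h
  have e : ∀ (g : SL(2, ℝ)) (u : ℍ), wv s g (h • u) = wv s (g * h) u := by
    intro g u
    rw [SPW_wv, SPW_wv, mul_smul]
  unfold sph
  simp only [e]
  rw [h1]

theorem SPW_fub (hkc : Continuous kM) (s : ℝ) (f f' : ℍ → ℂ) (hf : Continuous f) (hfc : HasCompactSupport f)
    (hf' : Continuous f') (hfc' : HasCompactSupport f') :
    gf s f f' = ∫ z : ℍ, ∫ w : ℍ, f z * (starRingEnd ℂ) (f' w) * sph s z w := by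
  have hkz : Continuous (fun p : ℝ × ℍ => wv s (kM p.1) p.2) := SPW_c2 hkc s
  have hconj : Continuous (fun w => (starRingEnd ℂ) (f' w)) := Complex.continuous_conj.comp hf'
  have hconjc : HasCompactSupport (fun w => (starRingEnd ℂ) (f' w)) :=
    hfc'.comp_left (g := (starRingEnd ℂ)) (map_zero _)
  -- continuity of the conjugate transform
  have hftc : Continuous (fun θ => (starRingEnd ℂ) (ft s f' θ)) := by
    have e : (fun θ => (starRingEnd ℂ) (ft s f' θ)) =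
        fun θ => ∫ w in tsupport (fun w => (starRingEnd ℂ) (f' w)),
          (starRingEnd ℂ) (f' w) * (starRingEnd ℂ) (wv s (kM θ) w) := by
      funext θ
      rw [ft, ← integral_conj, setIntegral_eq_integral_of_forall_compl_eq_zero]
      · simp only [map_mul]
      · intro w hw
        have h : (starRingEnd ℂ) (f' w) = 0 :=
          image_eq_zero_of_notMem_tsupport (f := fun w => (starRingEnd ℂ) (f' w)) hw
        rw [h, zero_mul]
    rw [e]
    refine continuous_parametric_integral_of_continuous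
      (f := fun θ w => (starRingEnd ℂ) (f' w) * (starRingEnd ℂ) (wv s (kM θ) w)) ?_ hconjc.isCompact
    exact (hconj.comp continuous_snd).mul (Complex.continuous_conj.comp hkz)
  have hin : ∀ z : ℍ, ∫ w : ℍ, f z * (starRingEnd ℂ) (f' w) * sph s z w =
      (((2 * Real.pi)⁻¹ : ℝ) : ℂ) * (f z * ∫ θ in (0 : ℝ)..(2 * Real.pi), wv s (kM θ) z * (starRingEnd ℂ) (ft s f' θ)) := by
    intro z
    have h1 := SPW_swap (fun w => (starRingEnd ℂ) (f' w))
      (fun θ w => wv s (kM θ) z * (starRingEnd ℂ) (wv s (kM θ) w)) hconj hconjc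
      ((SPW_c3 hkc s z).mul (Complex.continuous_conj.comp hkz))
    have h2 : ∀ w : ℍ, f z * (starRingEnd ℂ) (f' w) * sph s z w =
        (f z * (((2 * Real.pi)⁻¹ : ℝ) : ℂ)) * ((starRingEnd ℂ) (f' w) *
          ∫ θ in (0 : ℝ)..(2 * Real.pi), wv s (kM θ) z * (starRingEnd ℂ) (wv s (kM θ) w)) := by
      intro w
      rw [sph]
      ring
    have h3 : ∀ θ : ℝ, ∫ w : ℍ, (starRingEnd ℂ) (f' w) * (wv s (kM θ) z * (starRingEnd ℂ) (wv s (kM θ) w)) =
        wv s (kM θ) z * (starRingEnd ℂ) (ft s f' θ) := by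
      intro θ
      have h4 : ∀ w : ℍ, (starRingEnd ℂ) (f' w) * (wv s (kM θ) z * (starRingEnd ℂ) (wv s (kM θ) w)) =
          wv s (kM θ) z * (starRingEnd ℂ) (f' w * wv s (kM θ) w) := by
        intro w
        rw [map_mul]
        ring
      simp only [h4]
      rw [MeasureTheory.integral_const_mul, integral_conj, ft]
    simp only [h2]
    rw [MeasureTheory.integral_const_mul, h1]
    simp only [h3]
    ring
  simp only [hin]
  rw [MeasureTheory.integral_const_mul, gf]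
  congr 1
  have h5 := SPW_swap f (fun θ z => wv s (kM θ) z * (starRingEnd ℂ) (ft s f' θ)) hf hfc
    (hkz.mul (hftc.comp continuous_fst))
  rw [h5]
  refine intervalIntegral.integral_congr fun θ _ => ?_
  have h6 : ∀ z : ℍ, f z * (wv s (kM θ) z * (starRingEnd ℂ) (ft s f' θ)) =
      (f z * wv s (kM θ) z) * (starRingEnd ℂ) (ft s f' θ) := by
    intro z
    ring
  simp only [h6]
  rw [MeasureTheory.integral_mul_const, ft]

theorem SPW_five (hkI : ∀ θ, kM θ • (I : ℍ) = I) (s : ℝ) (z : ℍ) :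
    sph s z I = ((2 * Real.pi)⁻¹ : ℝ) * ∫ θ in (0 : ℝ)..(2 * Real.pi), wv s (kM θ) z := by
  have e : ∀ θ : ℝ, wv s (kM θ) I = 1 := by
    intro θ
    rw [SPW_wv, hkI, SPW_p, UpperHalfPlane.I_im, Complex.ofReal_one, Complex.one_cpow]
  unfold sph
  simp only [e, map_one, mul_one]

theorem SPW (hGLC : GLC_stmt) (hSEQ : SEQ_stmt) (hSCV : SCV_stmt) : SPW_stmt := by
  obtain ⟨-, -, -, -, -, -, hkc, haM, hnM, -, -, -, -, -, -, hkI, -⟩ := hGLC
  exact ⟨SPW_eig hSEQ, SPW_cont, SPW_norm, SPW_inv haM hnM hSCV, SPW_five hkI, SPW_fub hkc⟩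

end Pool.Agent.RS
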